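import Mathlib

set_option autoImplicit false

namespace Pool.Agent.Results.MP_3e7e0d_al.InjectiveSimple

open CategoryTheory CategoryTheory.Abelian

noncomputable section

/-! ### Relative dimension -/

/-- The class of modules `M` with `Ext^i(M, P) = 0` for all `i ≥ 1` and all projective `P`. -/
def PerpProj {R : Type} [Ring R] (M : ModuleCat.{0} R) : Prop :=
  ∀ i : ℕ, 1 ≤ i → ∀ P : ModuleCat.{0} R, Projective P → ∀ x : Ext M P i, x = 0

/-- `PerpDimLE n A`: there is an exact sequence `0 → T_n → ⋯ → T_0 → A → 0` with all `T_i` in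
the class `PerpProj` (built up from short exact sequences `0 → K → T_0 → A → 0`). -/
inductive PerpDimLE {R : Type} [Ring R] : ℕ → ModuleCat.{0} R → Prop
  | zero (A : ModuleCat.{0} R) : PerpProj A → PerpDimLE 0 A
  | succ (n : ℕ) (S : ShortComplex (ModuleCat.{0} R)) : S.ShortExact → PerpProj S.X₂ →
      PerpDimLE n S.X₁ → PerpDimLE (n + 1) S.X₃

/-- The dimension of `A` with respect to the class `PerpProj`: the least length of a resolution. -/
def perpDim {R : Type} [Ring R] (A : ModuleCat.{0} R) : ℕ∞ :=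
  sInf {d : ℕ∞ | ∃ n : ℕ, PerpDimLE n A ∧ d = n}

/-! ### The ring -/

/-- The ring of pairs of sequences `(f, g)` with product `(f f', (σ f) g' + g f')`, where
`σ` is the shift. -/
@[ext] structure T (K : Type) where
  f : ℕ → K
  g : ℕ → K

variable {K : Type} [Field K]

namespace T

instance : Zero (T K) := ⟨⟨0, 0⟩⟩
instance : One (T K) := ⟨⟨1, 0⟩⟩
instance : Add (T K) := ⟨fun x y => ⟨x.f + y.f, x.g + y.g⟩⟩
instance : Neg (T K) := ⟨fun x => ⟨-x.f, -x.g⟩⟩
instance : Sub (T K) := ⟨fun x y => ⟨x.f - y.f, x.g - y.g⟩⟩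
instance : Mul (T K) := ⟨fun x y => ⟨x.f * y.f, fun n => x.f (n + 1) * y.g n + x.g n * y.f n⟩⟩

@[simp] theorem zero_f : (0 : T K).f = 0 := rfl
@[simp] theorem zero_g : (0 : T K).g = 0 := rfl
@[simp] theorem one_f : (1 : T K).f = 1 := rfl
@[simp] theorem one_g : (1 : T K).g = 0 := rfl
@[simp] theorem add_f (x y : T K) : (x + y).f = x.f + y.f := rfl
@[simp] theorem add_g (x y : T K) : (x + y).g = x.g + y.g := rfl
@[simp] theorem neg_f (x : T K) : (-x).f = -x.f := rfl
@[simp] theorem neg_g (x : T K) : (-x).g = -x.g := rfl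
@[simp] theorem sub_f (x y : T K) : (x - y).f = x.f - y.f := rfl
@[simp] theorem sub_g (x y : T K) : (x - y).g = x.g - y.g := rfl
@[simp] theorem mul_f (x y : T K) : (x * y).f = x.f * y.f := rfl
@[simp] theorem mul_g (x y : T K) (n : ℕ) :
    (x * y).g n = x.f (n + 1) * y.g n + x.g n * y.f n := rfl

instance : Ring (T K) where
  add_assoc x y z := by ext n <;> simp [add_assoc]
  zero_add x := by ext n <;> simp
  add_zero x := by ext n <;> simp
  add_comm x y := by ext n <;> simp [add_comm]
  left_distrib x y z := by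
    ext n
    · simp [mul_add]
    · simp only [mul_g, add_g, add_f, Pi.add_apply]; ring
  right_distrib x y z := by
    ext n
    · simp [add_mul]
    · simp only [mul_g, add_g, add_f, Pi.add_apply]; ring
  zero_mul x := by ext n <;> simp
  mul_zero x := by ext n <;> simp
  mul_assoc x y z := by
    ext n
    · simp [mul_assoc]
    · simp only [mul_g, mul_f, Pi.mul_apply]; ring
  one_mul x := by ext n <;> simp
  mul_one x := by ext n <;> simp
  neg_add_cancel x := by ext n <;> simp
  sub_eq_add_neg x y := by ext n <;> simp [sub_eq_add_neg]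
  nsmul := nsmulRec
  zsmul := zsmulRec

/-- The simple module at the vertex `n`: `(f, g)` acts as `f n`. -/
@[ext] structure Sm (K : Type) (n : ℕ) where
  v : K

namespace Sm
variable {n : ℕ}
instance : Zero (Sm K n) := ⟨⟨0⟩⟩
instance : Add (Sm K n) := ⟨fun x y => ⟨x.v + y.v⟩⟩
instance : Neg (Sm K n) := ⟨fun x => ⟨-x.v⟩⟩
instance : Sub (Sm K n) := ⟨fun x y => ⟨x.v - y.v⟩⟩
@[simp] theorem zero_v : (0 : Sm K n).v = 0 := rfl
@[simp] theorem add_v (x y : Sm K n) : (x + y).v = x.v + y.v := rfl
@[simp] theorem neg_v (x : Sm K n) : (-x).v = -x.v := rfl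
@[simp] theorem sub_v (x y : Sm K n) : (x - y).v = x.v - y.v := rfl
instance : AddCommGroup (Sm K n) where
  add_assoc x y z := by ext; simp [add_assoc]
  zero_add x := by ext; simp
  add_zero x := by ext; simp
  add_comm x y := by ext; simp [add_comm]
  neg_add_cancel x := by ext; simp
  sub_eq_add_neg x y := by ext; simp [sub_eq_add_neg]
  nsmul := nsmulRec
  zsmul := zsmulRec
instance : SMul (T K) (Sm K n) := ⟨fun r x => ⟨r.f n * x.v⟩⟩
@[simp] theorem smul_v (r : T K) (x : Sm K n) : (r • x).v = r.f n * x.v := rfl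
instance : Module (T K) (Sm K n) where
  one_smul x := by ext; simp
  mul_smul r s x := by ext; simp [mul_assoc]
  smul_zero r := by ext; simp
  smul_add r x y := by ext; simp [mul_add]
  add_smul r s x := by ext; simp [add_mul]
  zero_smul x := by ext; simp
end Sm

/-- The projective module at the vertex `n`. -/
@[ext] structure Pm (K : Type) (n : ℕ) where
  a : K
  b : K

namespace Pm
variable {n : ℕ}
instance : Zero (Pm K n) := ⟨⟨0, 0⟩⟩
instance : Add (Pm K n) := ⟨fun x y => ⟨x.a + y.a, x.b + y.b⟩⟩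
instance : Neg (Pm K n) := ⟨fun x => ⟨-x.a, -x.b⟩⟩
instance : Sub (Pm K n) := ⟨fun x y => ⟨x.a - y.a, x.b - y.b⟩⟩
@[simp] theorem zero_a : (0 : Pm K n).a = 0 := rfl
@[simp] theorem add_a (x y : Pm K n) : (x + y).a = x.a + y.a := rfl
@[simp] theorem neg_a (x : Pm K n) : (-x).a = -x.a := rfl
@[simp] theorem sub_a (x y : Pm K n) : (x - y).a = x.a - y.a := rfl
@[simp] theorem zero_b : (0 : Pm K n).b = 0 := rfl
@[simp] theorem add_b (x y : Pm K n) : (x + y).b = x.b + y.b := rfl
@[simp] theorem neg_b (x : Pm K n) : (-x).b = -x.b := rfl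
@[simp] theorem sub_b (x y : Pm K n) : (x - y).b = x.b - y.b := rfl
instance : AddCommGroup (Pm K n) where
  add_assoc x y z := by ext <;> simp [add_assoc]
  zero_add x := by ext <;> simp
  add_zero x := by ext <;> simp
  add_comm x y := by ext <;> simp [add_comm]
  neg_add_cancel x := by ext <;> simp
  sub_eq_add_neg x y := by ext <;> simp [sub_eq_add_neg]
  nsmul := nsmulRec
  zsmul := zsmulRec
instance : SMul (T K) (Pm K n) := ⟨fun r x => ⟨r.f n * x.a, r.g n * x.a + r.f (n + 1) * x.b⟩⟩
@[simp] theorem smul_a (r : T K) (x : Pm K n) : (r • x).a = r.f n * x.a := rfl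
@[simp] theorem smul_b (r : T K) (x : Pm K n) :
    (r • x).b = r.g n * x.a + r.f (n + 1) * x.b := rfl
instance : Module (T K) (Pm K n) where
  one_smul x := by ext <;> simp
  mul_smul r s x := by
    ext
    · simp [mul_assoc]
    · simp only [smul_a, smul_b, mul_f, mul_g, Pi.mul_apply]; ring
  smul_zero r := by ext <;> simp
  smul_add r x y := by
    ext
    · simp [mul_add]
    · simp only [smul_b, add_a, add_b]; ring
  add_smul r s x := by
    ext
    · simp [add_mul]
    · simp only [smul_b, add_b, add_f, add_g, Pi.add_apply]; ring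
  zero_smul x := by ext <;> simp
end Pm

/-- the inclusion of the simple module `n + 1` in the projective module `n` -/
def inc (n : ℕ) : Sm K (n + 1) →ₗ[T K] Pm K n where
  toFun x := ⟨0, x.v⟩
  map_add' x y := by ext <;> simp
  map_smul' r x := by ext <;> simp

/-- the projection onto the simple module `n` -/
def prj (n : ℕ) : Pm K n →ₗ[T K] Sm K n where
  toFun x := ⟨x.a⟩
  map_add' x y := by ext; simp
  map_smul' r x := by ext; simp

/-- the short exact sequence `0 → S_(n+1) → P_n → S_n → 0` -/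
def ses (K : Type) [Field K] (n : ℕ) : ShortComplex (ModuleCat.{0} (T K)) where
  X₁ := ModuleCat.of (T K) (Sm K (n + 1))
  X₂ := ModuleCat.of (T K) (Pm K n)
  X₃ := ModuleCat.of (T K) (Sm K n)
  f := ModuleCat.ofHom (inc n)
  g := ModuleCat.ofHom (prj n)
  zero := by ext x; rfl

theorem ses_exact (n : ℕ) : (ses K n).ShortExact := by
  apply ModuleCat.shortComplex_shortExact
  · intro x
    constructor
    · intro h
      have h' : (x : Pm K n).a = 0 := congrArg Sm.v h
      exact ⟨(⟨(x : Pm K n).b⟩ : Sm K (n + 1)), Pm.ext h'.symm rfl⟩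
    · rintro ⟨c, hc⟩
      have := congrArg Pm.a hc
      exact Sm.ext this.symm
  · intro x y h
    exact Sm.ext (congrArg Pm.b h)
  · intro x
    exact ⟨(⟨(x : Sm K n).v, 0⟩ : Pm K n), rfl⟩

/-- the embedding of `P_n` into the ring -/
def emb (n : ℕ) : Pm K n →ₗ[T K] T K where
  toFun x := ⟨Pi.single n x.a, Pi.single n x.b⟩
  map_add' x y := by ext m <;> simp [Pi.single_add]
  map_smul' r x := by
    ext m
    · by_cases h : m = n
      · subst h; simp
      · simp [h]
    · by_cases h : m = n
      · subst h; simp [add_comm]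
      · simp [h]

instance (n : ℕ) : Module.Projective (T K) (Pm K n) := by
  refine Module.Projective.of_split (emb n) (LinearMap.toSpanSingleton (T K) (Pm K n)
    ⟨1, 0⟩) ?_
  ext x <;> simp [emb]

instance (n : ℕ) : Projective (ModuleCat.of (T K) (Pm K n)) :=
  (IsProjective.iff_projective (Pm K n)).1 inferInstance

/-- Every linear map from `S_(n+1)` to a projective module extends to `P_n`. -/
theorem extend (n : ℕ) (P : Type) [AddCommGroup P] [Module (T K) P] [Module.Projective (T K) P]
    (φ : Sm K (n + 1) →ₗ[T K] P) : ∃ ψ : Pm K n →ₗ[T K] P, ψ ∘ₗ inc n = φ := by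
  obtain ⟨σ, hσ⟩ := Module.projective_def'.1 (inferInstance : Module.Projective (T K) P)
  set x : P →₀ T K := σ (φ ⟨1⟩) with hx
  have hsm : ∀ r : T K, r • x = σ (φ ⟨r.f (n + 1)⟩) := by
    intro r
    rw [hx, ← map_smul, ← map_smul]
    congr 2
    ext
    simp
  have h1 : ∀ p m, m ≠ n → (x p).g m = 0 := by
    intro p m hm
    have h := hsm ⟨Pi.single (n + 1) 1, 0⟩
    rw [show (⟨Pi.single (n + 1) 1, 0⟩ : T K).f (n + 1) = 1 by simp, ← hx] at h
    have h2 := congrArg (fun z => (z p).g m) h
    simp only [Finsupp.smul_apply, smul_eq_mul, mul_g] at h2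
    rw [← h2]
    simp [hm]
  have h2 : ∀ p m, (x p).f m = 0 := by
    intro p m
    have h := hsm ⟨0, Pi.single m 1⟩
    rw [show (⟨0, Pi.single m 1⟩ : T K).f (n + 1) = 0 by simp,
      show φ ⟨0⟩ = 0 from map_zero φ, map_zero] at h
    have h2 := congrArg (fun z => (z p).g m) h
    simpa using h2
  set y : P →₀ T K := Finsupp.mapRange (fun r : T K => (⟨Pi.single n (r.g n), 0⟩ : T K))
    (by ext m <;> simp) x with hy
  have hxy : (⟨0, Pi.single n 1⟩ : T K) • y = x := by
    ext p m
    · simp [h2]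
    · rw [Finsupp.smul_apply, hy, Finsupp.mapRange_apply, smul_eq_mul, mul_g]
      by_cases h : m = n
      · subst h; simp
      · simp [h, h1 p m h]
  refine ⟨(Finsupp.linearCombination (T K) id) ∘ₗ
    (LinearMap.toSpanSingleton (T K) (P →₀ T K) y) ∘ₗ emb n, ?_⟩
  have hσ' : ∀ z, Finsupp.linearCombination (T K) id (σ z) = z := fun z =>
    LinearMap.congr_fun hσ z
  ext c
  show Finsupp.linearCombination (T K) id (emb n (inc n c) • y) = φ c
  have h4 : emb n (inc n c) = (⟨fun _ => c.v, 0⟩ : T K) * ⟨0, Pi.single n 1⟩ := by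
    ext m
    · simp [emb, inc]
    · by_cases h : m = n
      · subst h; simp [emb, inc]
      · simp [emb, inc, h]
  rw [h4, mul_smul, hxy, hsm, hσ']

/-- `S_n` is not projective. -/
theorem not_projective (n : ℕ) : ¬ Projective (ModuleCat.of (T K) (Sm K n)) := by
  intro h
  have h1 : Module.Projective (T K) (Sm K n) := (IsProjective.iff_projective (Sm K n)).2 h
  obtain ⟨s, hs⟩ := Module.projective_lifting_property (prj n : Pm K n →ₗ[T K] Sm K n)
    LinearMap.id (fun x => ⟨⟨x.v, 0⟩, rfl⟩)
  have h2 : prj n (s ⟨1⟩) = (⟨1⟩ : Sm K n) := LinearMap.congr_fun hs _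
  have h3 : (s ⟨1⟩).a = 1 := congrArg Sm.v h2
  have h4 : s ((⟨0, Pi.single n 1⟩ : T K) • (⟨1⟩ : Sm K n)) =
      (⟨0, Pi.single n 1⟩ : T K) • s ⟨1⟩ := map_smul _ _ _
  have h5 : (⟨0, Pi.single n 1⟩ : T K) • (⟨1⟩ : Sm K n) = 0 := by
    ext; simp
  rw [h5, map_zero] at h4
  have h6 := congrArg Pm.b h4
  simp [h3] at h6

theorem not_pd (m n : ℕ) :
    ¬ HasProjectiveDimensionLT (ModuleCat.of (T K) (Sm K n)) (m + 1) := by
  induction m generalizing n with
  | zero =>
    intro h
    exact not_projective n (projective_iff_hasProjectiveDimensionLT_one.2 h)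
  | succ m ih =>
    intro h
    exact ih (n + 1) (((ses_exact n).hasProjectiveDimensionLT_X₃_iff m
      (inferInstanceAs (Projective (ModuleCat.of (T K) (Pm K n))))).1 h)

theorem ext_zero (i : ℕ) (P : ModuleCat.{0} (T K)) (hP : Projective P) : ∀ (n : ℕ)
    (x : Ext (ses K n).X₃ P (i + 1)), x = 0 := by
  induction i with
  | zero =>
    intro n x
    obtain ⟨x₁, rfl⟩ := Ext.contravariant_sequence_exact₃ (ses_exact n) P x
      (Ext.eq_zero_of_projective (P := ModuleCat.of (T K) (Pm K n)) _) (n₀ := 0) rfl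
    obtain ⟨φ, rfl⟩ := Ext.homEquiv₀.symm.surjective x₁
    have : Module.Projective (T K) P := (IsProjective.iff_projective P).2 hP
    obtain ⟨ψ, hψ⟩ := extend n P φ.hom
    have h1 : φ = (ses K n).f ≫ ModuleCat.ofHom ψ := by
      ext x
      exact (LinearMap.congr_fun hψ x).symm
    have h2 : (ses_exact n).extClass.comp (Ext.mk₀ φ) (add_zero 1) = 0 := by
      rw [h1, ← Ext.mk₀_comp_mk₀]
      rw [← Ext.comp_assoc_of_second_deg_zero, (ses_exact n).extClass_comp, Ext.zero_comp]
    exact h2
  | succ i ih =>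
    intro n x
    obtain ⟨x₁, rfl⟩ := Ext.contravariant_sequence_exact₃ (ses_exact n) P x
      (Ext.eq_zero_of_projective (P := ModuleCat.of (T K) (Pm K n)) _) (n₀ := i + 1)
      (by omega)
    have h1 : x₁ = 0 := ih (n + 1) x₁
    rw [h1]
    exact Ext.comp_zero _ _ _ _ _

/-- `S_0` is injective. -/
theorem injective : Module.Injective (T K) (Sm K 0) := by
  apply Module.Baer.injective
  intro I g
  -- the idempotent at the vertex `0`
  set e : T K := ⟨Pi.single 0 1, 0⟩ with he
  have hmul : ∀ r : T K, e * r = ⟨Pi.single 0 (r.f 0), 0⟩ := by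
    intro r
    ext m
    · simp only [he, mul_f, Pi.mul_apply]
      by_cases h : m = 0
      · subst h; simp
      · simp [h]
    · simp [he]
  have hg : ∀ x : I, g x = g (e • x) := by
    intro x
    rw [map_smul]
    ext
    simp [he]
  by_cases h : e ∈ I
  · refine ⟨LinearMap.toSpanSingleton (T K) (Sm K 0) (g ⟨e, h⟩), ?_⟩
    intro x mem
    rw [LinearMap.toSpanSingleton_apply, ← map_smul, hg, hg ⟨x, mem⟩]
    congr 1
    apply Subtype.ext
    show e * (x * e) = e * x
    rw [hmul, hmul]
    simp [he]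
  · refine ⟨0, ?_⟩
    intro x mem
    rw [LinearMap.zero_apply, hg]
    have h1 : e • (⟨x, mem⟩ : I) = 0 := by
      apply Subtype.ext
      show e * x = 0
      rw [hmul]
      by_contra hne
      apply h
      have h2 : x.f 0 ≠ 0 := by
        intro h0
        apply hne
        rw [h0]
        ext m <;> simp
      have h3 : e = (⟨fun _ => (x.f 0)⁻¹, 0⟩ : T K) * (e * x) := by
        rw [hmul]
        ext m
        · by_cases h : m = 0
          · subst h; simp [he, h2]
          · simp [he, h]
        · simp [he]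
      rw [h3]
      exact I.mul_mem_left _ (I.mul_mem_left _ mem)
    rw [h1, map_zero]

end T

/-- There are a ring `R` and a module `A` with `id A = 0`, `pd A = ∞` and relative dimension `0`
with respect to the class of modules `M` with `Ext^i(M, P) = 0` for all `i ≥ 1` and all
projective `P`. -/
theorem result : ∃ (R : Type) (_ : Ring R) (A : ModuleCat.{0} R),
    injectiveDimension A = 0 ∧ projectiveDimension A = ⊤ ∧ perpDim A = 0 := by
  refine ⟨T ℚ, inferInstance, ModuleCat.of (T ℚ) (T.Sm ℚ 0), ?_, ?_, ?_⟩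
  · have h1 : Injective (ModuleCat.of (T ℚ) (T.Sm ℚ 0)) := by
      have := T.injective (K := ℚ)
      exact Module.injective_object_of_injective_module (T ℚ) (T.Sm ℚ 0)
    apply le_antisymm
    · exact_mod_cast (injectiveDimension_le_iff _ 0).2 inferInstance
    · have h2 := (injectiveDimension_ge_iff (ModuleCat.of (T ℚ) (T.Sm ℚ 0)) 0).2 (by
        intro h
        have := isZero_of_hasInjectiveDimensionLT_zero (ModuleCat.of (T ℚ) (T.Sm ℚ 0))
        rw [ModuleCat.isZero_of_iff_subsingleton] at this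
        have h3 := this.elim (⟨1⟩ : T.Sm ℚ 0) 0
        exact one_ne_zero (congrArg T.Sm.v h3))
      exact_mod_cast h2
  · by_contra h
    obtain ⟨n, hn⟩ := (projectiveDimension_ne_top_iff _).1 h
    exact T.not_pd n 0 hn
  · apply le_antisymm _ zero_le
    apply sInf_le
    refine ⟨0, PerpDimLE.zero _ ?_, by simp⟩
    intro i hi P hP x
    obtain ⟨j, rfl⟩ : ∃ j, i = j + 1 := ⟨i - 1, by omega⟩
    exact T.ext_zero j P hP 0 x

end

end Pool.Agent.Results.MP_3e7e0d_al.InjectiveSimple
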